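import Pool.Agent.MWI.StmtsT

/-!
# Row GAT of MWI (helper66): the letters `y` in the place blocks can be made adjacent
-/

set_option autoImplicit false

namespace Pool.Agent.MWI.H66

open Pool.Agent.Helper14_MV Pool.Agent.Helper2_MV Pool.Agent.MWF Pool.Agent.MWI

variable {β : FIC}

def ga (a b : ℕ → ℕ) : ℕ → ℕ := fun i => if b i = 0 then a i else 0
def gb (a b : ℕ → ℕ) : ℕ → ℕ := fun i => if b i = 0 then 0 else a i + b i

theorem blk (hk : K1 β) (a b : ℕ → ℕ) (i z : ℕ) (p q : List ℕ) (h : z ∈ p ∨ z ∈ q) :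
    RR β (p ++ (List.replicate (a i) 0 ++ z :: (List.replicate (b i) 0 ++ q)))
      (p ++ (List.replicate (ga a b i) 0 ++ z :: (List.replicate (gb a b i) 0 ++ q))) := by
  unfold ga gb
  by_cases hb : b i = 0
  · rw [if_pos hb, if_pos hb, hb]
    exact RR.refl _
  · rw [if_neg hb, if_neg hb]
    obtain ⟨c, hc⟩ : ∃ c, b i = c + 1 := ⟨b i - 1, by omega⟩
    rw [hc]
    exact RR.symm (k1pow hk z 0 c (a i) p q (fun _ => h))

theorem left (hk : K1 β) (a b : ℕ → ℕ) (P : List ℕ) : ∀ p q : List ℕ, (∀ i ∈ P, 3 * i + 2 ∈ q) →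
    RR β (p ++ (pA a b P ++ q)) (p ++ (pA (ga a b) (gb a b) P ++ q)) := by
  induction P with
  | nil => exact fun p q _ => RR.refl _
  | cons i P ih =>
    intro p q h
    have h1 := blk hk a b i (3 * i + 2) p ((3 * i + 1) :: (pA a b P ++ q))
      (Or.inr (List.mem_cons_of_mem _ (List.mem_append_right _ (h i List.mem_cons_self))))
    have h2 := ih (p ++ (List.replicate (ga a b i) 0 ++ (3 * i + 2) ::
      (List.replicate (gb a b i) 0 ++ [3 * i + 1]))) q
      (fun j hj => h j (List.mem_cons_of_mem _ hj))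
    unfold pA at h1 h2 ⊢
    simp only [List.flatMap_cons, List.append_assoc, List.cons_append, List.nil_append] at h1 h2 ⊢
    exact rtr h1 h2

theorem right (hk : K1 β) (a b : ℕ → ℕ) (Q : List ℕ) : ∀ p q : List ℕ, (∀ i ∈ Q, 3 * i + 2 ∈ p) →
    RR β (p ++ (pC a b Q ++ q)) (p ++ (pC (ga a b) (gb a b) Q ++ q)) := by
  induction Q with
  | nil => exact fun p q _ => RR.refl _
  | cons i Q ih =>
    intro p q h
    have h1 := blk hk a b i (3 * i + 2) (p ++ [3 * i + 1]) (pC a b Q ++ q)
      (Or.inl (List.mem_append_left _ (h i List.mem_cons_self)))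
    have h2 := ih (p ++ (3 * i + 1) :: (List.replicate (ga a b i) 0 ++ (3 * i + 2) ::
      List.replicate (gb a b i) 0)) q
      (fun j hj => List.mem_append_left _ (h j (List.mem_cons_of_mem _ hj)))
    unfold pC at h1 h2 ⊢
    simp only [List.flatMap_cons, List.append_assoc, List.cons_append, List.nil_append] at h1 h2 ⊢
    exact rtr h1 h2

/-- **GAT** -/
theorem gat : GatStmt := by
  intro β hk a b P M Q h
  refine ⟨ga a b, gb a b, fun i => ?_, fun i => ?_, ?_⟩
  · unfold ga gb
    by_cases hb : b i = 0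
    · exact Or.inr (if_pos hb)
    · exact Or.inl (if_neg hb)
  · unfold ga gb
    by_cases hb : b i = 0
    · rw [if_pos hb, if_pos hb, hb]
    · rw [if_neg hb, if_neg hb, Nat.zero_add]
  · have h1 := left hk a b P [] (M ++ pC a b Q)
      (fun i hi => List.mem_append_left _ (h i (List.mem_append_left _ hi)))
    have h2 := right hk a b Q (pA (ga a b) (gb a b) P ++ M) []
      (fun i hi => List.mem_append_right _ (h i (List.mem_append_right _ hi)))
    simp only [List.nil_append, List.append_nil, List.append_assoc] at h1 h2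
    exact rtr h1 h2

end Pool.Agent.MWI.H66
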